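import Pool.Agent.Lib.MP_226ef1_lc.U.IfaceM
import Pool.Agent.Lib.MP_226ef1_lc.U.Tools

/-!
# Project INCL, module BLOCK (Paper 5.6)
-/

set_option autoImplicit false

namespace Pool.Agent.Lib.MP_226ef1_lc.U.H50

open Pool.Agent.Lib.MP_226ef1_lc.U

universe u

/-- BLOCK -/
theorem block (hF : FamWfStatement) : BlockStatement.{u} := by
  classical
  intro J hJ T _ G u hu hG hR τ hτ' c hc hbad
  have hτ : InFam J τ := Or.inl hτ'
  obtain ⟨hwf, hlen, _⟩ := hF J hJ τ hτ
  obtain ⟨hc1, hc2, hc3⟩ := hc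
  set σ : T → List ℕ := fun t => if t ∈ G then [c t] else [0] with hσ
  have hσG : ∀ t ∈ G, σ t = [c t] := fun t ht => by simp [hσ, ht]
  have hσ0 : ∀ t, t ∉ G → σ t = [0] := fun t ht => by simp [hσ, ht]
  have hσne : ∀ t, σ t ≠ [] := by
    intro t
    by_cases ht : t ∈ G
    · rw [hσG t ht]; simp
    · rw [hσ0 t ht]; simp
  refine ⟨τ, hτ, σ, hσne, ?_⟩
  intro v hv _ hnf
  have hu0 : u ≠ [] := by
    intro h
    rw [h] at hu
    simp at hu
  have humap : u.flatMap σ = u.map c := flatMap_eq_map fun a ha => hσG a ((hG a).1 ha)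
  have h3 : ∀ t ∈ G, 3 ≤ c t := fun t ht => hwf.cols_ge _ (hc1 t ht).1
  have hu00 : 0 ∉ u.map c := by
    intro h
    obtain ⟨t, ht, h0⟩ := List.mem_map.1 h
    have := h3 t ((hG t).1 ht)
    omega
  have hunf : ¬ τ.Free (u.map c) := by
    refine Tm.not_free_of_len ?_
    rw [List.length_map, hlen]
    exact hu
  have hvne : v.flatMap σ ≠ [] := by
    obtain ⟨a, w, rfl⟩ := List.exists_cons_of_ne_nil hv
    rw [List.flatMap_cons]
    intro h
    exact hσne a (List.append_eq_nil_iff.1 h).1
  rw [humap] at hnf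
  have hmapne : u.map c ≠ [] := by simpa using hu0
  rcases Tm.of_nf_eq hwf hvne hmapne hnf with ⟨_, h⟩ | ⟨_, _, h, h'⟩ | ⟨hv0, _, hvF, _, hsd, hpar⟩
  · exact absurd h hu00
  · rw [h'] at h
    exact absurd h hunf
  have hvG : ∀ t ∈ v, t ∈ G := by
    intro t ht
    by_contra htG
    apply hv0
    refine List.mem_flatMap.2 ⟨t, ht, ?_⟩
    rw [hσ0 t htG]
    simp
  have hvmap : v.flatMap σ = v.map c := flatMap_eq_map fun a ha => hσG a (hvG a ha)
  rw [hvmap] at hsd hpar hvF hv0
  have hsu : ∀ s ∈ τ.seeds, s ∈ u.map c := by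
    intro s hs
    obtain ⟨x, hx, rfl⟩ := hc2 s hs
    exact List.mem_map.2 ⟨x, (hG x).2 hx, rfl⟩
  have hsv : ∀ s ∈ τ.seeds, s ∈ v.map c := fun s hs => (hsd s hs).2 (hsu s hs)
  have hYG : v.toFinset ⊆ G := fun t ht => hvG t (List.mem_toFinset.1 ht)
  have hgen : Gen J.L G v.toFinset := by
    refine hc3 _ hYG fun s hs => ?_
    obtain ⟨x, hx, h⟩ := List.mem_map.1 (hsv s hs)
    exact ⟨x, List.mem_toFinset.2 hx, h⟩
  have hgenG : Gen J.L G G := hR.up _ _ hgen hYG (Finset.Subset.refl _)
  have hmv : (v.map c).sum % 2 = par (mn J.L G) v := sum_map_mod fun a ha => (hc1 a (hvG a ha)).2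
  have hmu : (u.map c).sum % 2 = par (mn J.L G) u :=
    sum_map_mod fun a ha => (hc1 a ((hG a).1 ha)).2
  have huG : ∀ t ∈ u, t ∈ G := fun t ht => (hG t).1 ht
  have hpuv : par (mn J.L G) v = par (mn J.L G) u := by rw [← hmv, ← hmu, hpar]
  have hprdu : prd u = ee J.L G * prd u := hR.long u G hu hG hgenG
  simp only [List.map_id']
  by_cases hvl : J.L < v.length
  · have h1 : prd v = ee J.L G * prd v :=
      hR.long v v.toFinset hvl (fun t => by simp) hgen
    rw [h1, hprdu]
    exact hR.same v u hvG huG hpuv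
  · have hvl' : (v.map c).length ≤ τ.len := by
      rw [List.length_map, hlen]
      omega
    have hvc : ∀ x ∈ v.map c, τ.cols x := by
      intro x hx
      obtain ⟨t, ht, rfl⟩ := List.mem_map.1 hx
      exact (hc1 t (hvG t ht)).1
    have hmvne : v.map c ≠ [] := by simpa using hv
    obtain ⟨s0, hs0, hb⟩ := Tm.exists_bad_of_not_free hmvne hvl' hvc hvF
    obtain ⟨a, v0, b, hvab, rfl⟩ := exists_infix_of_map hs0
    have hfull : ∀ s ∈ τ.seeds, s ∈ v0.map c := by
      rcases hwf.bad_full _ hb with h | h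
      · exact h
      · have h1 : v0.length = J.L := by rw [← hlen, ← h, List.length_map]
        have h2 : v.length = a.length + v0.length + b.length := by
          rw [hvab]; simp only [List.length_append]
        have ha : a = [] := List.length_eq_zero_iff.1 (by omega)
        have hb' : b = [] := List.length_eq_zero_iff.1 (by omega)
        have h3 : v = v0 := by rw [hvab, ha, hb']; simp
        rw [← h3]
        exact hsv
    have haG : ∀ t ∈ a, t ∈ G := fun t ht => hvG t (by rw [hvab]; simp [ht])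
    have hv0G : ∀ t ∈ v0, t ∈ G := fun t ht => hvG t (by rw [hvab]; simp [ht])
    have hbG : ∀ t ∈ b, t ∈ G := fun t ht => hvG t (by rw [hvab]; simp [ht])
    have hprd0 : prd v0 = ee J.L G := hbad v0 ⟨hv0G, hb, hfull⟩
    have hpar0 : par (mn J.L G) v0 = 0 := by
      rw [← sum_map_mod (c := c) fun a ha => (hc1 a (hv0G a ha)).2]
      exact hwf.bad_even _ hb
    have hparab : par (mn J.L G) (a ++ b) = par (mn J.L G) u := by
      rw [← hpuv, hvab, par_append, par_append, par_append, hpar0]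
      have := par_lt (p := mn J.L G) a
      omega
    have habG : ∀ t ∈ a ++ b, t ∈ G := by
      intro t ht
      rcases List.mem_append.1 ht with h | h
      · exact haG t h
      · exact hbG t h
    calc prd v = prd a * ee J.L G * prd b := by rw [hvab, prd_append, prd_append, hprd0]
      _ = ee J.L G * prd a * prd b := by rw [hR.comm a haG]
      _ = ee J.L G * prd (a ++ b) := by rw [prd_append, mul_assoc]
      _ = ee J.L G * prd u := hR.same _ _ habG huG hparab
      _ = prd u := hprdu.symm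

end Pool.Agent.Lib.MP_226ef1_lc.U.H50
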