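import Pool.Agent.Lib.MP_226ef1_lc.U.IfaceM
import Pool.Agent.Lib.MP_226ef1_lc.U.Tools

/-!
# Project INCL, module DICT: homomorphisms and substitutions
-/

set_option autoImplicit false

namespace Pool.Agent.Lib.MP_226ef1_lc.U.H50

open Pool.Agent.Lib.MP_226ef1_lc.U

theorem toL_mul {G : Type} (p q : FreeSemigroup G) : toL (p * q) = toL p ++ toL q := rfl

theorem toL_of {G : Type} (g : G) : toL (FreeSemigroup.of g) = [g] := rfl

theorem toL_ne {G : Type} (p : FreeSemigroup G) : toL p ≠ [] := by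
  simp [toL]

theorem flatMap_ne {G : Type} {σ : G → List ℕ} (hσ : ∀ g, σ g ≠ []) (p : FreeSemigroup G) :
    (toL p).flatMap σ ≠ [] := by
  intro h
  unfold toL at h
  rw [List.flatMap_cons] at h
  exact hσ _ (List.append_eq_nil_iff.1 h).1

/-- the element as a word -/
noncomputable def emb (τ : Tm) (cb : ℕ) {t : Table} (ht : t.IsSemigroup) (i : t.Sgp ht) : List ℕ :=
  (τ.elts cb).getD (Fin.val (n := t.length) i) []

section
variable {τ : Tm} {cb : ℕ} (ht : (τ.tab cb).IsSemigroup)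
  (hnd : (τ.elts cb).Nodup) (hmem : ∀ w, w ∈ τ.elts cb ↔ w ≠ [] ∧ τ.nf w = w)
  (hlen : (τ.tab cb).length = (τ.elts cb).length)
  (hmul : ∀ i j, i < (τ.elts cb).length → j < (τ.elts cb).length →
        (τ.elts cb).getD ((τ.tab cb).entry i j) [] =
          τ.nf ((τ.elts cb).getD i [] ++ (τ.elts cb).getD j []))

include hlen in
theorem lt_len (i : (τ.tab cb).Sgp ht) : Fin.val (n := (τ.tab cb).length) i < (τ.elts cb).length :=
  hlen ▸ Fin.is_lt (n := (τ.tab cb).length) i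

include hlen in
theorem emb_getElem (i : (τ.tab cb).Sgp ht) :
    emb τ cb ht i = (τ.elts cb)[Fin.val (n := (τ.tab cb).length) i]'(lt_len ht hlen i) := by
  unfold emb
  exact List.getD_eq_getElem _ _ (lt_len ht hlen i)

include hlen in
theorem emb_mem (i : (τ.tab cb).Sgp ht) : emb τ cb ht i ∈ τ.elts cb := by
  rw [emb_getElem ht hlen]
  exact List.getElem_mem _

include hlen hnd in
theorem emb_inj {i j : (τ.tab cb).Sgp ht} (h : emb τ cb ht i = emb τ cb ht j) : i = j := by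
  rw [emb_getElem ht hlen, emb_getElem ht hlen] at h
  have := (hnd.getElem_inj_iff).1 h
  exact Fin.ext (n := (τ.tab cb).length) this

include hlen in
theorem emb_surj {w : List ℕ} (hw : w ∈ τ.elts cb) : ∃ i : (τ.tab cb).Sgp ht, emb τ cb ht i = w := by
  obtain ⟨n, hn, rfl⟩ := List.getElem_of_mem hw
  refine ⟨(⟨n, hlen.symm ▸ hn⟩ : Fin (τ.tab cb).length), ?_⟩
  exact List.getD_eq_getElem _ _ hn

include hlen hmul in
theorem emb_mul (i j : (τ.tab cb).Sgp ht) :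
    emb τ cb ht (i * j) = τ.nf (emb τ cb ht i ++ emb τ cb ht j) := by
  unfold emb
  exact hmul _ _ (lt_len ht hlen i) (lt_len ht hlen j)

include hlen hmul in
theorem emb_hom (hnf : (∀ a b : List ℕ, a ≠ [] → τ.nf (τ.nf a ++ b) = τ.nf (a ++ b)) ∧
    (∀ a b : List ℕ, b ≠ [] → τ.nf (a ++ τ.nf b) = τ.nf (a ++ b)))
    {G : Type} (φ : FreeSemigroup G →ₙ* (τ.tab cb).Sgp ht) (σ : G → List ℕ) (hσ : ∀ g, σ g ≠ [])
    (hφ : ∀ g, emb τ cb ht (φ (FreeSemigroup.of g)) = τ.nf (σ g)) (p : FreeSemigroup G) :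
    emb τ cb ht (φ p) = τ.nf ((toL p).flatMap σ) := by
  refine FreeSemigroup.recOnMul (C := fun p => emb τ cb ht (φ p) = τ.nf ((toL p).flatMap σ)) p ?_ ?_
  · intro g
    rw [toL_of, hφ]
    simp
  · intro g q h1 h2
    rw [map_mul, emb_mul ht hlen hmul, h1, h2, hnf.1 _ _ (flatMap_ne hσ _),
      hnf.2 _ _ (flatMap_ne hσ _), toL_mul, List.flatMap_append]

end

/-- DICT -/
theorem dict (hT : TabStatement) (hL : FamLStatement) (hN : NfStatement) (hW : FamWfStatement) :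
    DictStatement := by
  intro J hJ h
  have main : ∀ τ, InFam J τ → τ.WF ∧ (τ.elts (cbd J)).Nodup ∧
      (∀ w, w ∈ τ.elts (cbd J) ↔ w ≠ [] ∧ τ.nf w = w) ∧
      (τ.tab (cbd J)).length = (τ.elts (cbd J)).length ∧
      ∀ i j, i < (τ.elts (cbd J)).length → j < (τ.elts (cbd J)).length →
        (τ.elts (cbd J)).getD ((τ.tab (cbd J)).entry i j) [] =
          τ.nf ((τ.elts (cbd J)).getD i [] ++ (τ.elts (cbd J)).getD j []) := by
    intro τ hτ
    have hwf := (hW J hJ τ hτ).1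
    obtain ⟨h1, h2, _, h4, h5⟩ := hT τ hwf (cbd J) (by unfold cbd; omega) ((hL J hJ).2 τ hτ)
    exact ⟨hwf, h1, h2, h4, h5⟩
  constructor
  · intro t ht
    obtain ⟨τ, hτ, rfl⟩ := List.mem_map.1 ht
    have hτF : InFam J τ := ((hL J hJ).1 τ).1 hτ
    refine ⟨τ, hτF, ?_⟩
    intro G φ
    obtain ⟨hwf, hnd, hmem, hlen, hmul⟩ := main τ hτF
    have hnf := hN τ hwf
    refine ⟨fun g => emb τ (cbd J) (h _ ht) (φ (FreeSemigroup.of g)), ?_, ?_⟩
    · intro g
      exact ((hmem _).1 (emb_mem (h _ ht) hlen _)).1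
    · have key := emb_hom (h _ ht) hlen hmul ⟨hnf.1, hnf.2.1⟩ φ
        (fun g => emb τ (cbd J) (h _ ht) (φ (FreeSemigroup.of g)))
        (fun g => ((hmem _).1 (emb_mem (h _ ht) hlen _)).1)
        (fun g => ((hmem _).1 (emb_mem (h _ ht) hlen _)).2.symm)
      intro p q
      rw [← key p, ← key q]
      exact ⟨fun hpq => by rw [hpq], fun hpq => emb_inj (h _ ht) hnd hlen hpq⟩
  · intro τ hτF
    obtain ⟨hwf, hnd, hmem, hlen, hmul⟩ := main τ hτF
    have hnf := hN τ hwf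
    have ht : τ.tab (cbd J) ∈ tabs J := List.mem_map.2 ⟨τ, ((hL J hJ).1 τ).2 hτF, rfl⟩
    refine ⟨τ.tab (cbd J), ht, ?_⟩
    intro G σ hσ
    have hex : ∀ g, ∃ i : (τ.tab (cbd J)).Sgp (h _ ht), emb τ (cbd J) (h _ ht) i = τ.nf (σ g) := by
      intro g
      refine emb_surj (h _ ht) hlen ((hmem _).2 ?_)
      obtain ⟨h1, h2⟩ := hnf.2.2 (σ g) (hσ g)
      exact ⟨h2, h1⟩
    choose f hf using hex
    refine ⟨FreeSemigroup.lift f, ?_⟩
    have key := emb_hom (h _ ht) hlen hmul ⟨hnf.1, hnf.2.1⟩ (FreeSemigroup.lift f) σ hσ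
      (fun g => by rw [FreeSemigroup.lift_of]; exact hf g)
    intro p q
    rw [← key p, ← key q]
    exact ⟨fun hpq => by rw [hpq], fun hpq => emb_inj (h _ ht) hnd hlen hpq⟩

end Pool.Agent.Lib.MP_226ef1_lc.U.H50
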