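import Pool.Agent.Lib.MP_226ef1_lc.U.IfaceM
import Pool.Agent.Lib.MP_226ef1_lc.U.Tools

/-!
# Project INCL, module STEP3 (Paper 5.3)
-/

set_option autoImplicit false

namespace Pool.Agent.Lib.MP_226ef1_lc.U.H50

open Pool.Agent.Lib.MP_226ef1_lc.U

universe u

/-- STEP3 -/
theorem step3 (hF : FamWfStatement) : Step3Statement.{u} := by
  classical
  intro J hJ T _ hloc _ hE G hGex x hx y hy hmx hmy
  obtain ⟨Y, ⟨hYne, hYG, hYe⟩, hY5⟩ := hGex
  set Y' : Finset T := Y ∪ {x, y} with hY'
  have hxY : x ∈ Y' := by simp [hY']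
  have hyY : y ∈ Y' := by simp [hY']
  have hYY' : Y ⊆ Y' := Finset.subset_union_left
  have hY'G : Y' ⊆ G := by
    intro t ht
    rw [hY'] at ht
    rcases Finset.mem_union.1 ht with h | h
    · exact hYG h
    · rcases Finset.mem_insert.1 h with h | h
      · rw [h]; exact hx
      · rw [Finset.mem_singleton.1 h]; exact hy
  have hY'ne : Y'.Nonempty := ⟨x, hxY⟩
  have hGne : G.Nonempty := ⟨x, hx⟩
  have hL : 24 ≤ J.L := by unfold TS.L; omega
  have hcard : Y'.card ≤ J.L + 1 := by
    have h1 : Y'.card ≤ Y.card + ({x, y} : Finset T).card := Finset.card_union_le _ _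
    have h2 : ({x, y} : Finset T).card ≤ 2 := Finset.card_le_two
    omega
  have heY' : ee J.L Y' = ee J.L G := by
    have h1 : ee J.L Y * ee J.L Y' = ee J.L Y' := hE.mul Y Y' Y' hYne hY'ne fun t =>
      ⟨fun h => Or.inr h, fun h => h.elim (fun h => hYY' h) id⟩
    have h2 : ee J.L G * ee J.L Y' = ee J.L G := hE.mul G Y' G hGne hY'ne fun t =>
      ⟨fun h => Or.inl h, fun h => h.elim id fun h => hY'G h⟩
    rw [← h1, hYe, h2]
  set u' : List T := dbl J.L Y' with hu'
  have hu'len : J.L < u'.length := hE.dbl_len Y' hY'ne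
  have hu'ne : u' ≠ [] := by
    intro h
    rw [h] at hu'len
    simp at hu'len
  have hu'mem : ∀ t, t ∈ u' ↔ t ∈ Y' := hE.dbl_mem Y'
  have hprdu' : prd u' = ee J.L Y' := rfl
  obtain ⟨τ, hτ, σ, hσ, hsep⟩ := hloc Y' hcard u' hu'ne fun t ht => (hu'mem t).1 ht
  obtain ⟨hwf, hlen, _⟩ := hF J hJ τ hτ
  -- adding the word `w` over `Y'` at the end of `u'`
  have key : ∀ w : List T, (∀ t ∈ w, t ∈ Y') →
      τ.nf ((u' ++ w).flatMap σ) = τ.nf (u'.flatMap σ) → ee J.L G * prd w = ee J.L G := by
    intro w hw h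
    have h1 := hsep (u' ++ w) (by simp [hu'ne]) (by
      intro g hg
      rcases List.mem_append.1 hg with h | h
      · exact (hu'mem g).1 h
      · exact hw g h) h
    simp only [List.map_id'] at h1
    rw [prd_append, hprdu', heY'] at h1
    exact h1
  have h00 : 0 ∉ u'.flatMap σ := by
    intro h0
    apply hmx
    have h1 := key [x] (by intro t ht; rw [List.mem_singleton.1 ht]; exact hxY) (by
      rw [Tm.nf_zero h0, Tm.nf_zero]
      rw [List.flatMap_append]
      exact List.mem_append_left _ h0)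
    simpa using h1
  have hσ00 : ∀ t ∈ Y', 0 ∉ σ t := by
    intro t ht h
    exact h00 (List.mem_flatMap.2 ⟨t, (hu'mem t).2 ht, h⟩)
  have hlenu : ∀ w : List T, τ.len < ((u' ++ w).flatMap σ).length := by
    intro w
    have h1 : (u' ++ w).length ≤ ((u' ++ w).flatMap σ).length :=
      length_le_flatMap fun a _ => hσ a
    rw [List.length_append] at h1
    omega
  have hlong : ∀ w : List T, (∀ t ∈ w, t ∈ Y') → (w.flatMap σ).sum % 2 = 0 →
      ee J.L G * prd w = ee J.L G := by
    intro w hw hs
    refine key w hw ?_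
    refine Tm.nf_eq_of_long ?_ h00 (Tm.not_free_of_len (hlenu w)) (Tm.not_free_of_len ?_) ?_ ?_
    · rw [List.flatMap_append, List.mem_append]
      rintro (h | h)
      · exact h00 h
      · obtain ⟨t, ht, h⟩ := List.mem_flatMap.1 h
        exact hσ00 t (hw t ht) h
    · have := hlenu []
      rwa [List.append_nil] at this
    · intro s _
      rw [List.flatMap_append, List.mem_append]
      refine ⟨?_, fun h => Or.inl h⟩
      rintro (h | h)
      · exact h
      · obtain ⟨t, ht, h⟩ := List.mem_flatMap.1 h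
        exact List.mem_flatMap.2 ⟨t, (hu'mem t).2 (hw t ht), h⟩
    · rw [List.flatMap_append, List.sum_append]
      omega
  have hodd : ∀ t ∈ Y', mn J.L G t → (σ t).sum % 2 = 1 := by
    intro t ht hm
    by_contra hcon
    apply hm
    have h1 := hlong [t] (by intro s hs; rw [List.mem_singleton.1 hs]; exact ht) (by
      simp only [List.flatMap_cons, List.flatMap_nil, List.append_nil]
      omega)
    simpa using h1
  have h1 := hlong [x, y] (by
    intro s hs
    rcases List.mem_cons.1 hs with h | h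
    · rw [h]; exact hxY
    · rw [List.mem_singleton.1 h]; exact hyY) (by
    simp only [List.flatMap_cons, List.flatMap_nil, List.append_nil, List.sum_append]
    have h1 := hodd x hxY hmx
    have h2 := hodd y hyY hmy
    omega)
  rw [prd_cons, prd_singleton] at h1
  rw [mul_assoc]
  exact h1

end Pool.Agent.Lib.MP_226ef1_lc.U.H50
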